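import Mathlib
import Pool.Agent.KS6_47.CEg.Bip2

/-!
# MP_97fe03_al, Q1: homological shift algebras of complementary edge ideals

For every field `K`, every connected graph `G` on `n` vertices and every `i` the homological shift
algebra `HS_i(R(I_c(G)))` is generated in degrees `≤ i` over the Rees algebra, it is zero in
degrees `s < i/2` and identically zero for `i ≥ n`, and all powers of `I_c(G)` have linear
resolutions. For bipartite graphs with the parts `A` and `B` it is zero in the degrees `s` with
`min(s, |A| - 1) + min(s, |B| - 1) < i`, and for complete bipartite graphs it is not zero in all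
the other degrees. The case of the stars shows that the bound `i` is best possible for
`i ≤ n - 2`.

The definitions (`compEdge`, `IsKoszulChain`, `koszulD`, `TorNonzero`, `HS`) are in
`Pool.Agent.KS6_47.CEg.Tor`.
-/

set_option autoImplicit false

namespace Pool.Agent.Results.MP_97fe03_al.SharpGenerationDegree

open Pool.Agent.KS6_47.CEg Pool.Agent.KS6_47.CEg.Tor

/-- **Generation degrees of homological shift algebras of complementary edge ideals, and their
vanishing ranges.** Let `G` be a connected graph on `n` vertices, `K` a field and `I = I_c(G)` in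
`K[x_1, …, x_n]`.

(1) `HS_i(I^(s+1)) = I · HS_i(I^s)` for all `i` and all `s ≥ i`, i.e. the graded `R(I)`-module
`HS_i(R(I))` is generated in degrees `≤ i`.

(2) `HS_i(I^s) = 0` if `2 s < i` or `i ≥ n`; and if `Tor_i(K, I^s)` is not zero in multidegree `a`,
then `|a| = s (n - 2) + i` (the power `I^s` has a linear resolution) and all exponents of `a` are at
most `s`.

(3) If `G` is bipartite with the parts `A` and `Aᶜ`, then `HS_i(I^s) = 0` whenever
`min(s, |A| - 1) + min(s, |Aᶜ| - 1) < i`.

(4) If `G` is the complete bipartite graph with the nonempty parts `A` and `Aᶜ`, then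
`HS_i(I^s) = 0` if and only if `min(s, |A| - 1) + min(s, |Aᶜ| - 1) < i`. (For the stars, `|A| = 1`,
and `1 ≤ i ≤ n - 2`, this says that the first nonzero component is in degree `i`, so the bound `i`
of (1) cannot be lowered.) -/
theorem result (K : Type*) [Field K] (n : ℕ) (G : SimpleGraph (Fin n)) (hG : G.Connected) :
    (∀ i s : ℕ, i ≤ s →
      HS i (compEdge K G ^ (s + 1)) = compEdge K G * HS i (compEdge K G ^ s)) ∧
    ((∀ i s : ℕ, 2 * s < i ∨ n ≤ i → HS i (compEdge K G ^ s) = ⊥) ∧
      ∀ (i s : ℕ) (a : Fin n →₀ ℕ), TorNonzero (compEdge K G ^ s) i a →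
        ∑ j, a j + 2 * s = n * s + i ∧ ∀ j, a j ≤ s) ∧
    (∀ A : Finset (Fin n), (∀ a b, G.Adj a b → (a ∈ A ↔ b ∉ A)) →
      ∀ i s : ℕ, min s (A.card - 1) + min s (Aᶜ.card - 1) < i →
        HS i (compEdge K G ^ s) = ⊥) ∧
    (∀ A : Finset (Fin n), 0 < A.card → 0 < Aᶜ.card → (∀ a b, G.Adj a b ↔ (a ∈ A ↔ b ∉ A)) →
      ∀ i s : ℕ, HS i (compEdge K G ^ s) = ⊥ ↔
        min s (A.card - 1) + min s (Aᶜ.card - 1) < i) :=
  ⟨fun i s hs => main K n G hG i s hs, ⟨large_bot hG, linear hG⟩,
    fun _ hA _ _ h => bip_bot hG hA h,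
    fun _ h1 h2 hA i s => kb_iff hG (fun a b h => (hA a b).1 h)
      (fun a ha b hb => (hA a b).2 ⟨fun _ => hb, fun _ => ha⟩) h1 h2 i s⟩

end Pool.Agent.Results.MP_97fe03_al.SharpGenerationDegree
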